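import Mathlib
import Pool.Agent.N261.TF.Weak

set_option autoImplicit false

/-!
# Positive solutions of `Δψ = (|ψ|^(2p-2) - |x|⁻¹) ψ` on `ℝ³` for every `p > 1`
-/

open MeasureTheory Set
open scoped ContDiff

namespace Pool.Agent.Results.MP_30ce6b_an.PositiveSolution

/-- three-dimensional Euclidean space -/
abbrev E3 := EuclideanSpace ℝ (Fin 3)

/-- `G` is the distributional gradient of the locally integrable function `ψ` -/
def IsDistGradient (ψ : E3 → ℝ) (G : E3 → E3) : Prop :=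
  LocallyIntegrable ψ ∧ LocallyIntegrable G ∧
  ∀ η : E3 → ℝ, ContDiff ℝ ∞ η → HasCompactSupport η → ∀ e : E3,
    ∫ x, ψ x * fderiv ℝ η x e = - ∫ x, inner ℝ (G x) e * η x

/-- `ψ` belongs to the class `M` and `G` is its distributional gradient -/
def InM (ψ : E3 → ℝ) (G : E3 → E3) : Prop :=
  IsDistGradient ψ G ∧ LocallyIntegrable (fun x => ‖G x‖ ^ 2)

/-- `ψ` is a solution of `(E_p)` -/
def IsSolution (p : ℝ) (ψ : E3 → ℝ) : Prop :=
  ∃ G : E3 → E3, InM ψ G ∧ LocallyIntegrable (fun x => |ψ x| ^ (2 * p - 1)) ∧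
    ∀ η : E3 → ℝ, ContDiff ℝ ∞ η → HasCompactSupport η →
      Integrable (fun x => inner ℝ (gradient η x) (G x)) ∧
      Integrable (fun x => η x * ((|ψ x| ^ (2 * p - 2) - ‖x‖⁻¹) * ψ x)) ∧
      (∫ x, inner ℝ (gradient η x) (G x)) +
        ∫ x, η x * ((|ψ x| ^ (2 * p - 2) - ‖x‖⁻¹) * ψ x) = 0

theorem result : ∀ p : ℝ, 1 < p → ∃ ψ : E3 → ℝ, IsSolution p ψ ∧ Continuous ψ ∧
    (∀ x, 0 < ψ x) ∧ ∀ x y : E3, ‖x‖ ≤ ‖y‖ → ψ y ≤ ψ x := by
  intro p hp
  have hα : 0 < 2 * p - 2 := by linarith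
  obtain ⟨a, ψ, χ, ha, hc, hcχ, h0, hχ0, hd, hdχ, hpos, hχ⟩ :=
    Pool.Agent.N261.TF.exists_profile hα
  have hΨ : Continuous (fun x : E3 => ψ ‖x‖) := hc.comp continuous_norm
  have habs : ∀ x : E3, |ψ ‖x‖| = ψ ‖x‖ := fun x => abs_of_pos (hpos _ (norm_nonneg _)).1
  have hGm := Pool.Agent.N261.TF.GG_meas hcχ
  have hGb := Pool.Agent.N261.TF.GG_bound ha.le hχ
  refine ⟨fun x => ψ ‖x‖, ⟨Pool.Agent.N261.TF.GG χ, ⟨⟨hΨ.locallyIntegrable, ?_, ?_⟩, ?_⟩, ?_, ?_⟩,
    hΨ, fun x => (hpos _ (norm_nonneg _)).1, ?_⟩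
  · refine (locallyIntegrable_const (a / 2)).mono hGm.aestronglyMeasurable ?_
    filter_upwards with x
    exact (hGb x).trans (le_abs_self _)
  · intro η hη hηc e
    exact Pool.Agent.N261.TF.weak_gradient ha hc hd hχ η hη hηc e
  · refine (locallyIntegrable_const ((a / 2) ^ 2)).mono
      (hGm.norm.pow_const 2).aestronglyMeasurable ?_
    filter_upwards with x
    rw [Real.norm_of_nonneg (by positivity), Real.norm_of_nonneg (by positivity)]
    have := hGb x
    gcongr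
  · apply Continuous.locallyIntegrable
    exact hΨ.abs.rpow_const (fun _ => Or.inr (by linarith))
  · intro η hη hηc
    have := Pool.Agent.N261.TF.weak_equation hα ha hc hcχ hχ0 hdχ hpos hχ η hη hηc
    simp only [habs]
    exact this
  · intro x y hxy
    have hanti : AntitoneOn ψ (Icc 0 ‖y‖) := by
      apply antitoneOn_of_deriv_nonpos (convex_Icc 0 _) hc.continuousOn
      · intro r hr
        rw [interior_Icc] at hr
        exact (hd r hr.1).differentiableAt.differentiableWithinAt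
      · intro r hr
        rw [interior_Icc] at hr
        rw [(hd r hr.1).deriv]
        exact div_nonpos_of_nonpos_of_nonneg (hχ r hr.1.le).1 (by positivity)
    exact hanti ⟨norm_nonneg _, hxy⟩ ⟨norm_nonneg _, le_rfl⟩ hxy

end Pool.Agent.Results.MP_30ce6b_an.PositiveSolution
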